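import Mathlib

set_option autoImplicit false

namespace Pool.Agent.H.MP_94cd9d_al

open Polynomial

section Act
variable {Γ X : Type} [AddCommGroup Γ] [AddCommGroup X] [Module ℂ X]

def sh (u : Γ) : Module.End ℂ (Γ → X) where
  toFun f := fun n => f (n + u)
  map_add' _ _ := rfl
  map_smul' _ _ := rfl

def shHom : Multiplicative Γ →* Module.End ℂ (Γ → X) where
  toFun u := sh u.toAdd
  map_one' := by ext f n; simp [sh]
  map_mul' u v := by
    ext f n
    simp [sh, add_assoc]

noncomputable def act : AddMonoidAlgebra ℂ Γ →ₐ[ℂ] Module.End ℂ (Γ → X) :=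
  AddMonoidAlgebra.lift ℂ _ Γ shHom

theorem act_single (u : Γ) (r : ℂ) (f : Γ → X) (n : Γ) :
    act (AddMonoidAlgebra.single u r) f n = r • f (n + u) := by
  simp [act, AddMonoidAlgebra.lift_single, shHom, sh]

noncomputable def dl (u : Γ) : AddMonoidAlgebra ℂ Γ := AddMonoidAlgebra.single u 1 - 1

theorem act_dl (u : Γ) (f : Γ → X) : act (dl u) f = fwdDiff u f := by
  funext n
  simp [dl, act_single, fwdDiff]

theorem act_dl_pow (u : Γ) (N : ℕ) (f : Γ → X) : act (dl u ^ N) f = (fwdDiff u)^[N] f := by
  induction N with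
  | zero => simp
  | succ N ih => rw [pow_succ', map_mul, Module.End.mul_apply, ih, act_dl, Function.iterate_succ_apply']

theorem act_mem (S : Submodule ℂ X) (G : AddMonoidAlgebra ℂ Γ) (f : Γ → X) (hf : ∀ n, f n ∈ S)
    (n : Γ) : act G f n ∈ S := by
  induction G using AddMonoidAlgebra.induction_linear with
  | zero => simp
  | add a b ha hb => rw [map_add]; exact S.add_mem ha hb
  | single u r => rw [act_single]; exact S.smul_mem _ (hf _)

theorem act_comp {Γ' : Type} [AddCommGroup Γ'] (φ : Γ →+ Γ') (G : AddMonoidAlgebra ℂ Γ)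
    (r : Γ' → X) (n : Γ) :
    act G (fun n => r (φ n)) n = act (AddMonoidAlgebra.mapDomainRingHom ℂ φ G) r (φ n) := by
  induction G using AddMonoidAlgebra.induction_linear with
  | zero => simp
  | add a b ha hb => simp only [map_add, LinearMap.add_apply, Pi.add_apply, ha, hb]
  | single u c => simp [act_single]

theorem act_neg (G w : AddMonoidAlgebra ℂ Γ) (x : X) (n : Γ) :
    act G (fun n => w.coeff (-n) • x) n = (G * w).coeff (-n) • x := by
  induction G using AddMonoidAlgebra.induction_linear with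
  | zero => simp
  | add a b ha hb => simp only [map_add, LinearMap.add_apply, Pi.add_apply, ha, hb, add_mul,
      AddMonoidAlgebra.coeff_add, Finsupp.add_apply, add_smul]
  | single u c =>
    rw [act_single, smul_smul]
    congr 1
    rw [AddMonoidAlgebra.coeff_single_mul_apply]
    congr 2
    abel

theorem diff_poly (u n : Γ) (f : Γ → X) (p : ℂ[X]) (x : X) (N : ℕ)
    (h : ∀ t : ℕ, f (n + t • u) = p.eval (t : ℂ) • x) :
    (fwdDiff u)^[N] f n = ((fwdDiff (1 : ℂ))^[N] (fun z => p.eval z) 0) • x := by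
  rw [fwdDiff_iter_eq_sum_shift, fwdDiff_iter_eq_sum_shift, Finset.sum_smul]
  refine Finset.sum_congr rfl fun k _ => ?_
  rw [h, smul_assoc]
  simp

theorem diff_add (u n : Γ) (f f1 f2 : Γ → X) (N : ℕ)
    (h : ∀ t : ℕ, f (n + t • u) = f1 (n + t • u) + f2 (n + t • u)) :
    (fwdDiff u)^[N] f n = (fwdDiff u)^[N] f1 n + (fwdDiff u)^[N] f2 n := by
  simp only [fwdDiff_iter_eq_sum_shift, h, smul_add, Finset.sum_add_distrib]

theorem diff_poly2 (u n : Γ) (f : Γ → X) (p q : ℂ[X]) (x y : X) (N : ℕ)
    (h : ∀ t : ℕ, f (n + t • u) = p.eval (t : ℂ) • x + q.eval (t : ℂ) • y) :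
    (fwdDiff u)^[N] f n = ((fwdDiff (1 : ℂ))^[N] (fun z => p.eval z) 0) • x +
      ((fwdDiff (1 : ℂ))^[N] (fun z => q.eval z) 0) • y := by
  rw [fwdDiff_iter_eq_sum_shift, fwdDiff_iter_eq_sum_shift, fwdDiff_iter_eq_sum_shift,
    Finset.sum_smul, Finset.sum_smul, ← Finset.sum_add_distrib]
  refine Finset.sum_congr rfl fun k _ => ?_
  rw [h, smul_assoc, smul_assoc, smul_add]
  simp

end Act

variable {A : Type} [Ring A] [Algebra ℂ A]

def Vir (c : ℂ) (L : ℤ → A) : Prop :=
  ∀ m n : ℤ, L m * L n - L n * L m = ((m - n : ℤ) : ℂ) • L (m + n) +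
    (if m + n = 0 then c * ((m : ℂ) ^ 3 - m) / 12 else 0) • (1 : A)

noncomputable def ad (L : ℤ → A) (n : ℤ) : Module.End ℂ A :=
  LinearMap.mulLeft ℂ (L n) - LinearMap.mulRight ℂ (L n)

theorem ad_apply (L : ℤ → A) (n : ℤ) (x : A) : ad L n x = L n * x - x * L n := rfl

theorem ad_one (L : ℤ → A) (n : ℤ) : ad L n 1 = 0 := by simp [ad_apply]

theorem ad_mul (L : ℤ → A) (n : ℤ) (x y : A) : ad L n (x * y) = ad L n x * y + x * ad L n y := by
  simp only [ad_apply]; noncomm_ring

noncomputable def mu (d : ℕ) : MultilinearMap ℂ (fun _ : Fin d => A) A :=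
  MultilinearMap.mkPiAlgebraFin ℂ d A

theorem mu_apply (d : ℕ) (v : Fin d → A) : mu d v = (List.ofFn v).prod := rfl

theorem mu_succ (d : ℕ) (v : Fin (d + 1) → A) :
    mu (d + 1) v = v 0 * mu d (fun i => v i.succ) := by
  simp [mu_apply, List.ofFn_succ]

theorem leib (L : ℤ → A) (n : ℤ) (d : ℕ) (v : Fin d → A) :
    ad L n (mu d v) = ∑ j, mu d (Function.update v j (ad L n (v j))) := by
  induction d with
  | zero => simp [mu_apply, ad_one]
  | succ d ih =>
    rw [mu_succ, ad_mul, ih, Fin.sum_univ_succ, Finset.mul_sum]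
    congr 1
    · rw [mu_succ]
      simp [Function.update_of_ne (Fin.succ_ne_zero _)]
    · refine Finset.sum_congr rfl fun j _ => ?_
      rw [mu_succ, Function.update_of_ne (Fin.succ_ne_zero _).symm]
      congr 2
      funext i
      by_cases h : i = j
      · subst h; simp
      · rw [Function.update_of_ne h, Function.update_of_ne (fun e => h (Fin.succ_injective _ e))]

noncomputable def Phi (L : ℤ → A) {k : ℕ} (n : Fin k → ℤ) : Module.End ℂ A :=
  (List.ofFn fun i => ad L (n i)).prod

noncomputable def op (L : ℤ → A) {k d : ℕ} (ρ : Fin k → Fin d) (n : Fin k → ℤ) (j : Fin d) :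
    Module.End ℂ A :=
  (List.ofFn fun i => if ρ i = j then ad L (n i) else 1).prod

theorem expand (L : ℤ → A) {d : ℕ} (v : Fin d → A) (k : ℕ) (n : Fin k → ℤ) :
    Phi L n (mu d v) = ∑ ρ : Fin k → Fin d, mu d (fun j => op L ρ n j (v j)) := by
  induction k with
  | zero => simp [Phi, op]
  | succ k ih =>
    have h1 : Phi L n = ad L (n 0) * Phi L (fun i => n i.succ) := by
      simp [Phi, List.ofFn_succ]
    rw [h1, Module.End.mul_apply, ih, map_sum,
      ← (Fin.consEquiv (fun _ : Fin (k + 1) => Fin d)).sum_comp, Fintype.sum_prod_type_right]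
    refine Finset.sum_congr rfl fun ρ _ => ?_
    rw [leib]
    refine Finset.sum_congr rfl fun j0 _ => ?_
    congr 1
    funext j
    have h2 : op L (Fin.consEquiv (fun _ : Fin (k + 1) => Fin d) (j0, ρ)) n j =
        (if j0 = j then ad L (n 0) else 1) * op L ρ (fun i => n i.succ) j := by
      simp [op, List.ofFn_succ, Fin.consEquiv]
    rw [h2]
    by_cases h : j = j0
    · subst h; simp
    · rw [Function.update_of_ne h, if_neg (Ne.symm h)]; simp

theorem polyl {c : ℂ} {L : ℤ → A} (hL : Vir c L) {ι : Type} (P : ι → Prop) [DecidablePred P]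
    (n s : ι → ℤ) (a : ℤ) (l : List ι) :
    ∃ p q : ℂ[X], p.natDegree ≤ l.length ∧ q.natDegree ≤ l.length + 3 ∧ ∀ t : ℤ,
      (l.map fun i => if P i then ad L (n i + t * s i) else 1).prod (L a) =
        p.eval (t : ℂ) • L (a + (l.map fun i => if P i then n i else 0).sum +
          t * (l.map fun i => if P i then s i else 0).sum) +
        (if a + (l.map fun i => if P i then n i else 0).sum +
          t * (l.map fun i => if P i then s i else 0).sum = 0 then q.eval (t : ℂ) else 0) • (1 : A) := by
  induction l with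
  | nil => exact ⟨1, 0, by simp, by simp, fun t => by simp⟩
  | cons i l ih =>
    obtain ⟨p, q, hp, hq, h⟩ := ih
    by_cases hi : P i
    · set S1 := (l.map fun i => if P i then n i else 0).sum
      set S2 := (l.map fun i => if P i then s i else 0).sum
      refine ⟨p * (C ((n i - a - S1 : ℤ) : ℂ) + C ((s i - S2 : ℤ) : ℂ) * X),
        p * (C (c / 12) * ((C (n i : ℂ) + C (s i : ℂ) * X) ^ 3 - (C (n i : ℂ) + C (s i : ℂ) * X))),
        ?_, ?_, fun t => ?_⟩
      · refine natDegree_mul_le.trans ?_
        rw [List.length_cons]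
        refine add_le_add hp ?_
        compute_degree
      · refine natDegree_mul_le.trans ?_
        rw [List.length_cons]
        refine add_le_add (hp.trans (Nat.le_succ _)) ?_
        compute_degree
      · simp only [List.map_cons, List.prod_cons, List.sum_cons, if_pos hi, Module.End.mul_apply, h,
          map_add, map_smul, ad_one, smul_zero, add_zero]
        rw [ad_apply, hL]
        have e : n i + t * s i + (a + S1 + t * S2) = a + (n i + S1) + t * (s i + S2) := by ring
        rw [e, smul_add, smul_smul, smul_smul]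
        congr 2
        · simp; left; ring
        · split_ifs
          · simp; left; ring
          · simp
    · refine ⟨p, q, hp.trans (by simp), hq.trans (by simp), fun t => ?_⟩
      simp only [List.map_cons, List.prod_cons, List.sum_cons, if_neg hi, one_mul, zero_add, h]

end Pool.Agent.H.MP_94cd9d_al
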