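import Pool.Agent.H.MP_94cd9d_al.A

set_option autoImplicit false

namespace Pool.Agent.H.MP_94cd9d_al

open Polynomial

variable {A : Type} [Ring A] [Algebra ℂ A]

noncomputable def FF (L : ℤ → A) {k d : ℕ} (ρ : Fin k → Fin d) (a : Fin d → ℤ) (n : Fin k → ℤ) : A :=
  mu d (fun j => op L ρ n j (L (a j)))

theorem sum_map_finRange {k : ℕ} (f : Fin k → ℤ) : ((List.finRange k).map f).sum = ∑ i, f i := by
  rw [← List.ofFn_eq_map, List.sum_ofFn]

theorem kill {c : ℂ} {L : ℤ → A} (hL : Vir c L) {k d : ℕ} (ρ : Fin k → Fin d) (a : Fin d → ℤ)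
    (α β : Fin k) (hρ : ρ α = ρ β) :
    act (dl (Pi.single α 1 - Pi.single β 1 : Fin k → ℤ) ^ (k + 4)) (FF L ρ a) = 0 := by
  rw [act_dl_pow]
  funext n
  set u : Fin k → ℤ := Pi.single α 1 - Pi.single β 1 with hu
  obtain ⟨p, q, hp, hq, h⟩ := polyl hL (fun i => ρ i = ρ α) n u (a (ρ α)) (List.finRange k)
  have hs : ((List.finRange k).map fun i => if ρ i = ρ α then u i else 0).sum = 0 := by
    rw [sum_map_finRange]
    have : ∀ i, (if ρ i = ρ α then u i else 0) = u i := by
      intro i
      split_ifs with hi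
      · rfl
      · have h1 : i ≠ α := fun e => hi (by rw [e])
        have h2 : i ≠ β := fun e => hi (by rw [e, hρ])
        simp [hu, Pi.single_eq_of_ne h1, Pi.single_eq_of_ne h2]
    simp only [this]
    simp [hu, Finset.sum_sub_distrib]
  rw [hs] at h
  simp only [mul_zero, add_zero] at h
  set b := a (ρ α) + ((List.finRange k).map fun i => if ρ i = ρ α then n i else 0).sum
  set w : Fin d → A := fun j => op L ρ n j (L (a j))
  have key : ∀ t : ℕ, FF L ρ a (n + t • u) =
      p.eval (t : ℂ) • mu d (Function.update w (ρ α) (L b)) +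
        (if b = 0 then q else 0).eval (t : ℂ) • mu d (Function.update w (ρ α) 1) := by
    intro t
    rw [← MultilinearMap.map_update_smul, ← MultilinearMap.map_update_smul,
      ← MultilinearMap.map_update_add, FF]
    congr 1
    funext j
    by_cases hj : j = ρ α
    · subst hj
      rw [Function.update_self]
      have := h t
      rw [op, List.ofFn_eq_map]
      have e : ∀ i, (n + t • u) i = n i + t * u i := fun i => by simp
      simp only [e]
      rw [this]
      congr 2
      split_ifs <;> simp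
    · rw [Function.update_of_ne hj]
      simp only [w, op]
      congr 3
      funext i
      split_ifs with hi
      · have h1 : i ≠ α := fun e => hj (by rw [← hi, e])
        have h2 : i ≠ β := fun e => hj (by rw [← hi, e, hρ])
        simp [hu, Pi.single_eq_of_ne h1, Pi.single_eq_of_ne h2]
      · rfl
  rw [diff_poly2 u n _ _ _ _ _ _ key]
  rw [List.length_finRange] at hp hq
  rw [fwdDiff_iter_eq_zero_of_degree_lt (by omega), fwdDiff_iter_eq_zero_of_degree_lt]
  · simp
  · split_ifs
    · omega
    · simp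

theorem pair {c : ℂ} {L : ℤ → A} (hL : Vir c L) (x y a : ℤ) :
    ∑ t ∈ Finset.range (4 + 1), ((-1 : ℤ) ^ (4 - t) * ((4 : ℕ).choose t : ℤ)) •
      (ad L (x + t) * ad L (y - t)) (L a) = (if a + x + y = 0 then -2 * c else 0) • (1 : A) := by
  have h : ∀ t : ℤ, (ad L (x + t) * ad L (y - t)) (L a) =
      (((y - t - a : ℤ) : ℂ) * ((x + t - (y - t + a) : ℤ) : ℂ)) • L (a + x + y) +
      (if a + x + y = 0 then ((y - t - a : ℤ) : ℂ) * (c * (((x + t : ℤ) : ℂ) ^ 3 - (x + t : ℤ)) / 12)
        else 0) • (1 : A) := by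
    intro t
    rw [Module.End.mul_apply, ad_apply L (y - t), hL, map_add, map_smul, map_smul, ad_one, smul_zero,
      add_zero, ad_apply, hL]
    have e : x + t + (y - t + a) = a + x + y := by ring
    rw [e, smul_add, smul_smul, smul_smul]
    congr 2
    split_ifs <;> simp
  simp only [h, Finset.sum_range_succ, Finset.sum_range_zero]
  by_cases h0 : a + x + y = 0
  · simp only [if_pos h0]
    simp only [Nat.choose]
    push_cast
    module
  · simp only [if_neg h0]
    simp only [Nat.choose]
    push_cast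
    module

theorem prod_one_of {M : Type} [Monoid M] {d : ℕ} (g : Fin d → M) (i0 : Fin d)
    (h : ∀ i, i ≠ i0 → g i = 1) : (List.ofFn g).prod = g i0 := by
  induction d with
  | zero => exact i0.elim0
  | succ d ih =>
    rw [List.ofFn_succ, List.prod_cons]
    rcases Fin.eq_zero_or_eq_succ i0 with rfl | ⟨j, rfl⟩
    · rw [List.prod_eq_one, mul_one]
      intro x hx
      obtain ⟨i, rfl⟩ := List.mem_ofFn.1 hx
      exact h _ (Fin.succ_ne_zero _)
    · rw [h 0 (Fin.succ_ne_zero _).symm, one_mul,
        ih (fun i => g i.succ) j (fun i hi => h _ (fun e => hi (Fin.succ_injective _ e)))]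

def pr {d : ℕ} : Fin (d + d) → Fin d := Fin.addCases id id

@[simp] theorem pr0 {d : ℕ} (i : Fin d) : pr (Fin.castAdd d i) = i := by simp [pr]
@[simp] theorem pr1 {d : ℕ} (i : Fin d) : pr (Fin.natAdd d i) = i := by
  unfold pr; rw [Fin.addCases_right]; rfl

theorem op_pair (L : ℤ → A) {d : ℕ} (π : Equiv.Perm (Fin d)) (n : Fin (d + d) → ℤ) (j : Fin d) :
    op L (fun α => π (pr α)) n j =
      ad L (n (Fin.castAdd d (π.symm j))) * ad L (n (Fin.natAdd d (π.symm j))) := by
  rw [op, List.ofFn_add, List.prod_append, prod_one_of _ (π.symm j), prod_one_of _ (π.symm j)]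
  · have : ∀ i : Fin d, Fin.castLE (Nat.le_add_right d d) i = Fin.castAdd d i := fun _ => rfl
    simp only [this, pr0, pr1, Equiv.apply_symm_apply, if_true]
  · intro i hi
    rw [pr1, if_neg]
    intro e; apply hi; rw [← e]; simp
  · intro i hi
    have : Fin.castLE (Nat.le_add_right d d) i = Fin.castAdd d i := rfl
    rw [this, pr0, if_neg]
    intro e; apply hi; rw [← e]; simp

def uu {d : ℕ} (i : Fin d) : Fin (d + d) → ℤ :=
  Pi.single (Fin.castAdd d i) 1 - Pi.single (Fin.natAdd d i) 1

theorem ne01 {d : ℕ} (i j : Fin d) : Fin.castAdd d i ≠ Fin.natAdd d j := by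
  intro e
  have := congrArg Fin.val e
  simp at this
  omega

theorem uu0 {d : ℕ} (i j : Fin d) : uu i (Fin.castAdd d j) = if j = i then 1 else 0 := by
  simp only [uu, Pi.sub_apply, Pi.single_eq_of_ne (ne01 j i), sub_zero, Pi.single_apply,
    Fin.castAdd_inj]

theorem uu1 {d : ℕ} (i j : Fin d) : uu i (Fin.natAdd d j) = if j = i then -1 else 0 := by
  simp only [uu, Pi.sub_apply, Pi.single_eq_of_ne (ne01 i j).symm, zero_sub, Pi.single_apply,
    Fin.natAdd_inj]
  split_ifs <;> simp

theorem contract {c : ℂ} {L : ℤ → A} (hL : Vir c L) {d : ℕ} (π : Equiv.Perm (Fin d))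
    (a : Fin d → ℤ) (S : Finset (Fin d)) :
    act (∏ i ∈ S, dl (uu i) ^ 4) (FF L (fun α => π (pr α)) a) = fun n =>
      mu d (fun j => if π.symm j ∈ S then
        (if a j + n (Fin.castAdd d (π.symm j)) + n (Fin.natAdd d (π.symm j)) = 0
          then -2 * c else 0) • (1 : A)
        else (ad L (n (Fin.castAdd d (π.symm j))) * ad L (n (Fin.natAdd d (π.symm j)))) (L (a j))) := by
  induction S using Finset.induction_on with
  | empty =>
    funext n
    simp [FF, op_pair]
  | insert i S hi ih =>
    rw [Finset.prod_insert hi, map_mul, Module.End.mul_apply, ih, act_dl_pow]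
    funext n
    rw [fwdDiff_iter_eq_sum_shift]
    set w : Fin d → A := fun j => if π.symm j ∈ S then
        (if a j + n (Fin.castAdd d (π.symm j)) + n (Fin.natAdd d (π.symm j)) = 0
          then -2 * c else 0) • (1 : A)
        else (ad L (n (Fin.castAdd d (π.symm j))) * ad L (n (Fin.natAdd d (π.symm j)))) (L (a j))
      with hw
    have h1 : ∀ t : ℕ, (fun j => if π.symm j ∈ S then
        (if a j + (n + t • uu i) (Fin.castAdd d (π.symm j)) +
          (n + t • uu i) (Fin.natAdd d (π.symm j)) = 0 then -2 * c else 0) • (1 : A)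
        else (ad L ((n + t • uu i) (Fin.castAdd d (π.symm j))) *
          ad L ((n + t • uu i) (Fin.natAdd d (π.symm j)))) (L (a j))) =
        Function.update w (π i) ((ad L (n (Fin.castAdd d i) + t) *
          ad L (n (Fin.natAdd d i) - t)) (L (a (π i)))) := by
      intro t
      funext j
      by_cases hj : j = π i
      · subst hj
        have e0 : (n + t • uu i) (Fin.castAdd d i) = n (Fin.castAdd d i) + t := by simp [uu0]
        have e1 : (n + t • uu i) (Fin.natAdd d i) = n (Fin.natAdd d i) - t := by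
          rw [Pi.add_apply, Pi.smul_apply, uu1]; simp [sub_eq_add_neg]
        rw [Function.update_self, Equiv.symm_apply_apply, if_neg hi, e0, e1]
      · have : π.symm j ≠ i := fun e => hj (by rw [← e]; simp)
        have e0 : (n + t • uu i) (Fin.castAdd d (π.symm j)) = n (Fin.castAdd d (π.symm j)) := by
          rw [Pi.add_apply, Pi.smul_apply, uu0]; simp [this]
        have e1 : (n + t • uu i) (Fin.natAdd d (π.symm j)) = n (Fin.natAdd d (π.symm j)) := by
          rw [Pi.add_apply, Pi.smul_apply, uu1]; simp [this]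
        rw [Function.update_of_ne hj, e0, e1]
    simp only [h1]
    have h2 : ∀ (z : ℤ) (x : A), z • mu d (Function.update w (π i) x) =
        mu d (Function.update w (π i) (z • x)) := by
      intro z x
      rw [← Int.cast_smul_eq_zsmul ℂ, ← Int.cast_smul_eq_zsmul ℂ z x, MultilinearMap.map_update_smul]
    simp only [h2]
    rw [← MultilinearMap.map_update_sum, pair hL]
    congr 1
    funext j
    by_cases hj : j = π i
    · subst hj; simp
    · have : π.symm j ≠ i := fun e => hj (by rw [← e]; simp)
      rw [Function.update_of_ne hj]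
      simp [hw, this]

def diag {d : ℕ} : (Fin (d + d) → ℤ) →+ (Fin d → ℤ) where
  toFun n := fun i => n (Fin.castAdd d i) + n (Fin.natAdd d i)
  map_zero' := by funext i; simp
  map_add' x y := by funext i; simp; ring

theorem contract_all {c : ℂ} {L : ℤ → A} (hL : Vir c L) {d : ℕ} (π : Equiv.Perm (Fin d))
    (a : Fin d → ℤ) :
    act (∏ i, dl (uu i) ^ 4) (FF L (fun α => π (pr α)) a) = fun n =>
      (if (fun i => a (π i)) = - diag n then (-2 * c) ^ d else 0) • (1 : A) := by
  rw [contract hL]
  funext n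
  simp only [Finset.mem_univ, if_true]
  rw [MultilinearMap.map_smul_univ]
  have : mu d (fun _ => (1 : A)) = 1 := by simp [mu_apply]
  rw [this, Finset.prod_ite_zero]
  congr 1
  simp only [Finset.mem_univ, forall_true_left, Finset.prod_const, Finset.card_univ,
    Fintype.card_fin]
  congr 1
  apply propext
  constructor
  · intro h
    funext i
    have := h (π i)
    simp only [Equiv.symm_apply_apply] at this
    simp only [diag, Pi.neg_apply, AddMonoidHom.coe_mk, ZeroHom.coe_mk]
    omega
  · intro h j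
    have := congrFun h (π.symm j)
    simp only [diag, Pi.neg_apply, AddMonoidHom.coe_mk, ZeroHom.coe_mk, Equiv.apply_symm_apply] at this
    omega

noncomputable def cross (d : ℕ) : AddMonoidAlgebra ℂ (Fin (d + d) → ℤ) :=
  ∏ x ∈ Finset.univ.filter (fun x : Fin (d + d) × Fin (d + d) => pr x.1 ≠ pr x.2),
    dl (Pi.single x.1 1 - Pi.single x.2 1 : Fin (d + d) → ℤ) ^ (d + d + 4)

theorem cross_kill {c : ℂ} {L : ℤ → A} (hL : Vir c L) {d e : ℕ} (ρ : Fin (d + d) → Fin e)
    (a : Fin e → ℤ) (α β : Fin (d + d)) (h : pr α ≠ pr β) (hρ : ρ α = ρ β)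
    (G : AddMonoidAlgebra ℂ (Fin (d + d) → ℤ)) : act (G * cross d) (FF L ρ a) = 0 := by
  have hm : (α, β) ∈ Finset.univ.filter
      (fun x : Fin (d + d) × Fin (d + d) => pr x.1 ≠ pr x.2) := by simp [h]
  rw [cross, ← Finset.prod_erase_mul _ _ hm, ← mul_assoc, map_mul, Module.End.mul_apply,
    kill hL ρ a α β hρ, map_zero]

theorem low {c : ℂ} {L : ℤ → A} (hL : Vir c L) {d e : ℕ} (he : e < d) (a : Fin e → ℤ)
    (G : AddMonoidAlgebra ℂ (Fin (d + d) → ℤ)) :
    act (G * cross d) (fun n => Phi L n (mu e fun j => L (a j))) = 0 := by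
  have : (fun n : Fin (d + d) → ℤ => Phi L n (mu e fun j => L (a j))) = ∑ ρ, FF L ρ a := by
    funext n; rw [expand, Finset.sum_apply]; rfl
  rw [this, map_sum]
  refine Finset.sum_eq_zero fun ρ _ => ?_
  obtain ⟨i, j, hij, h⟩ := Fintype.exists_ne_map_eq_of_card_lt (fun i : Fin d => ρ (Fin.castAdd d i))
    (by simpa using he)
  exact cross_kill hL ρ a _ _ (by simpa using hij) h G

theorem top {c : ℂ} {L : ℤ → A} (hL : Vir c L) {d : ℕ} (a : Fin d → ℤ)
    (G : AddMonoidAlgebra ℂ (Fin (d + d) → ℤ)) :
    act ((G * ∏ i, dl (uu i) ^ 4) * cross d) (fun n => Phi L n (mu d fun j => L (a j))) =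
      ∑ π : Equiv.Perm (Fin d), act (G * cross d) (fun n =>
        (if (fun i => a (π i)) = - diag n then (-2 * c) ^ d else 0) • (1 : A)) := by
  have : (fun n : Fin (d + d) → ℤ => Phi L n (mu d fun j => L (a j))) = ∑ ρ, FF L ρ a := by
    funext n; rw [expand, Finset.sum_apply]; rfl
  rw [this, map_sum]
  symm
  refine Finset.sum_of_injOn (fun π α => π (pr α)) ?_ (by simp [Set.MapsTo]) ?_ ?_
  · intro π _ π' _ h
    ext i
    have := congrFun h (Fin.castAdd d i)
    simp only [pr0] at this
    rw [this]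
  · intro ρ _ hρ
    by_contra hne
    have hinj : ∀ α β, ρ α = ρ β → pr α = pr β := by
      intro α β h
      by_contra h'
      exact hne (cross_kill hL ρ a α β h' h _)
    have h0 : Function.Injective (fun i : Fin d => ρ (Fin.castAdd d i)) := by
      intro i j h
      simpa using hinj _ _ h
    have hb := (Finite.injective_iff_bijective.1 h0)
    apply hρ
    refine ⟨Equiv.ofBijective _ hb, by simp, ?_⟩
    funext α
    obtain ⟨i, hi⟩ := hb.2 (ρ α)
    have := hinj _ _ hi
    rw [pr0] at this
    subst this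
    exact hi
  · intro π _
    rw [mul_right_comm, map_mul act (G * cross d), Module.End.mul_apply, contract_all hL]

end Pool.Agent.H.MP_94cd9d_al
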