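import Pool.Agent.H.MP_94cd9d_al.B

set_option autoImplicit false

namespace Pool.Agent.H.MP_94cd9d_al

open Polynomial

variable {A : Type} [Ring A] [Algebra ℂ A]

def Wd (L : ℤ → A) (l : List ℤ) : A := (l.map L).prod

def Lt (L : ℤ → A) (d : ℕ) : Submodule ℂ A :=
  Submodule.span ℂ {x | ∃ l : List ℤ, l.length < d ∧ x = Wd L l}

theorem Lt_mono (L : ℤ → A) {d e : ℕ} (h : d ≤ e) : Lt L d ≤ Lt L e :=
  Submodule.span_mono fun _ ⟨l, hl, e⟩ => ⟨l, by omega, e⟩

theorem Wd_mem (L : ℤ → A) {d : ℕ} (l : List ℤ) (h : l.length < d) : Wd L l ∈ Lt L d :=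
  Submodule.subset_span ⟨l, h, rfl⟩

theorem Lt_mul (L : ℤ → A) {d : ℕ} (n : ℤ) {x : A} (hx : x ∈ Lt L d) : L n * x ∈ Lt L (d + 1) := by
  induction hx using Submodule.span_induction with
  | mem x hx =>
    obtain ⟨l, hl, rfl⟩ := hx
    exact Wd_mem L (n :: l) (by simpa using hl)
  | zero => simp
  | add x y _ _ hx hy => rw [mul_add]; exact Submodule.add_mem _ hx hy
  | smul r x _ hx => rw [mul_smul_comm]; exact Submodule.smul_mem _ _ hx

theorem perm_mem {c : ℂ} {L : ℤ → A} (hL : Vir c L) {l l' : List ℤ} (h : l.Perm l') :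
    Wd L l - Wd L l' ∈ Lt L l.length := by
  induction h with
  | nil => simp
  | cons x _ ih =>
    have := Lt_mul L x ih
    rw [mul_sub] at this
    exact this
  | swap x y l =>
    have e : Wd L (y :: x :: l) - Wd L (x :: y :: l) = (L y * L x - L x * L y) * Wd L l := by
      simp only [Wd, List.map_cons, List.prod_cons]; noncomm_ring
    rw [e, hL, add_mul, smul_mul_assoc, smul_mul_assoc, one_mul]
    exact Submodule.add_mem _ (Submodule.smul_mem _ _ (Wd_mem L ((y + x) :: l) (by simp)))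
      (Submodule.smul_mem _ _ (Wd_mem L l (by simp)))
  | trans h1 _ ih1 ih2 =>
    rw [← h1.length_eq] at ih2
    have := Submodule.add_mem _ ih1 ih2
    simpa using this

theorem Wd_ofFn (L : ℤ → A) {d : ℕ} (a : Fin d → ℤ) :
    Wd L (List.ofFn a) = mu d (fun j => L (a j)) := by
  rw [Wd, mu_apply, List.map_ofFn]; rfl

noncomputable def pid (L : ℤ → A) (d : ℕ) : ((Fin d → ℤ) →₀ ℂ) →ₗ[ℂ] A :=
  Finsupp.linearCombination ℂ (fun a => mu d (fun j => L (a j)))

noncomputable def Sym (d : ℕ) : ((Fin d → ℤ) →₀ ℂ) →ₗ[ℂ] ((Fin d → ℤ) →₀ ℂ) :=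
  ∑ π : Equiv.Perm (Fin d), Finsupp.lmapDomain ℂ ℂ (fun a i => a (π i))

theorem pid_Sym {c : ℂ} {L : ℤ → A} (hL : Vir c L) (d : ℕ) (m : (Fin d → ℤ) →₀ ℂ) :
    (d.factorial : ℂ) • pid L d m - pid L d (Sym d m) ∈ Lt L d := by
  induction m using Finsupp.induction_linear with
  | zero => simp
  | add a b ha hb =>
    have := Submodule.add_mem _ ha hb
    simp only [map_add, smul_add]
    convert this using 1
    abel
  | single a r =>
    have e : (d.factorial : ℂ) • pid L d (Finsupp.single a r) - pid L d (Sym d (Finsupp.single a r)) =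
        ∑ π : Equiv.Perm (Fin d), r • (Wd L (List.ofFn a) - Wd L (List.ofFn fun i => a (π i))) := by
      simp only [Sym, LinearMap.sum_apply, Finsupp.lmapDomain_apply, Finsupp.mapDomain_single,
        map_sum, pid, Finsupp.linearCombination_single, Wd_ofFn, smul_sub, Finset.sum_sub_distrib,
        Finset.sum_const, Finset.card_univ, Fintype.card_perm, Fintype.card_fin]
      rw [Nat.cast_smul_eq_nsmul]
    rw [e]
    refine Submodule.sum_mem _ fun π _ => Submodule.smul_mem _ _ ?_
    have := perm_mem hL (Equiv.Perm.ofFn_comp_perm π a).symm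
    rw [List.length_ofFn] at this
    exact this

theorem split (L : ℤ → A) (d : ℕ) {x : A} (hx : x ∈ Lt L (d + 1)) :
    ∃ m, x - pid L d m ∈ Lt L d := by
  induction hx using Submodule.span_induction with
  | mem x hx =>
    obtain ⟨l, hl, rfl⟩ := hx
    by_cases h : l.length < d
    · exact ⟨0, by simpa using Wd_mem L l h⟩
    · have : l.length = d := by omega
      subst this
      refine ⟨Finsupp.single l.get 1, ?_⟩
      simp only [pid, Finsupp.linearCombination_single, one_smul, ← Wd_ofFn, List.ofFn_get, sub_self]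
      exact Submodule.zero_mem _
  | zero => exact ⟨0, by simp⟩
  | add x y _ _ hx hy =>
    obtain ⟨m, hm⟩ := hx
    obtain ⟨m', hm'⟩ := hy
    refine ⟨m + m', ?_⟩
    have := Submodule.add_mem _ hm hm'
    rw [map_add]
    convert this using 1
    abel
  | smul r x _ hx =>
    obtain ⟨m, hm⟩ := hx
    refine ⟨r • m, ?_⟩
    rw [map_smul, ← smul_sub]
    exact Submodule.smul_mem _ _ hm

theorem low' {c : ℂ} {L : ℤ → A} (hL : Vir c L) {d : ℕ} (G : AddMonoidAlgebra ℂ (Fin (d + d) → ℤ))
    {x : A} (hx : x ∈ Lt L d) : act (G * cross d) (fun n => Phi L n x) = 0 := by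
  induction hx using Submodule.span_induction with
  | mem x hx =>
    obtain ⟨l, hl, rfl⟩ := hx
    have := low hL hl l.get G
    rwa [← Wd_ofFn, List.ofFn_get] at this
  | zero => simp only [map_zero]; exact map_zero _
  | add x y _ _ hx hy =>
    have : (fun n : Fin (d + d) → ℤ => Phi L n (x + y)) =
      (fun n => Phi L n x) + (fun n => Phi L n y) := by funext n; simp
    rw [this, map_add, hx, hy, add_zero]
  | smul r x _ hx =>
    have : (fun n : Fin (d + d) → ℤ => Phi L n (r • x)) = r • (fun n => Phi L n x) := by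
      funext n; simp
    rw [this, map_smul, hx, smul_zero]

theorem top' {c : ℂ} {L : ℤ → A} (hL : Vir c L) {d : ℕ} (G : AddMonoidAlgebra ℂ (Fin (d + d) → ℤ))
    (m : (Fin d → ℤ) →₀ ℂ) :
    act ((G * ∏ i, dl (uu i) ^ 4) * cross d) (fun n => Phi L n (pid L d m)) =
      act (G * cross d) (fun n => Sym d m (- diag n) • ((-2 * c) ^ d • (1 : A))) := by
  induction m using Finsupp.induction_linear with
  | zero => simp only [map_zero, Finsupp.zero_apply, zero_smul]; exact (map_zero _).trans (map_zero _).symm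
  | add x y hx hy =>
    have h1 : (fun n : Fin (d + d) → ℤ => Phi L n (pid L d (x + y))) =
      (fun n => Phi L n (pid L d x)) + (fun n => Phi L n (pid L d y)) := by funext n; simp
    have h2 : (fun n : Fin (d + d) → ℤ => Sym d (x + y) (- diag n) • ((-2 * c) ^ d • (1 : A))) =
      (fun n => Sym d x (- diag n) • ((-2 * c) ^ d • (1 : A))) +
      (fun n => Sym d y (- diag n) • ((-2 * c) ^ d • (1 : A))) := by funext n; simp [add_smul]
    rw [h1, h2, map_add, map_add, hx, hy]
  | single a r =>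
    have h1 : (fun n : Fin (d + d) → ℤ => Phi L n (pid L d (Finsupp.single a r))) =
      r • (fun n => Phi L n (mu d fun j => L (a j))) := by funext n; simp [pid]
    rw [h1, map_smul, top hL, ← map_sum, ← map_smul]
    congr 1
    funext n
    simp only [Sym, LinearMap.sum_apply, Finsupp.lmapDomain_apply, Finsupp.mapDomain_single,
      Finsupp.finsetSum_apply, Pi.smul_apply, Finset.sum_apply, Finset.sum_smul, Finset.smul_sum]
    refine Finset.sum_congr rfl fun π _ => ?_
    rw [Finsupp.single_apply]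
    split_ifs <;> simp

theorem Phi_mem (L : ℤ → A) (I : Submodule ℂ A) (hI : ∀ n, ∀ x ∈ I, ad L n x ∈ I) {k : ℕ}
    (n : Fin k → ℤ) {x : A} (hx : x ∈ I) : Phi L n x ∈ I := by
  induction k with
  | zero => simpa [Phi] using hx
  | succ k ih =>
    have h1 : Phi L n = ad L (n 0) * Phi L (fun i => n i.succ) := by
      simp [Phi, List.ofFn_succ]
    rw [h1]
    exact hI _ _ (ih _)

theorem cross_ne (d : ℕ) : AddMonoidAlgebra.mapDomainRingHom ℂ diag (cross d) ≠ 0 := by
  rw [cross, map_prod, Finset.prod_ne_zero_iff]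
  intro x hx
  rw [map_pow]
  apply pow_ne_zero
  have hx' : pr x.1 ≠ pr x.2 := by simpa using hx
  have hd : ∀ α : Fin (d + d), diag (Pi.single α 1 : Fin (d + d) → ℤ) = Pi.single (pr α) 1 := by
    intro α
    funext i
    induction α using Fin.addCases with
    | left j =>
      simp only [diag, AddMonoidHom.coe_mk, ZeroHom.coe_mk, pr0,
        Pi.single_eq_of_ne (ne01 j i).symm, add_zero, Pi.single_apply, Fin.castAdd_inj]
    | right j =>
      simp only [diag, AddMonoidHom.coe_mk, ZeroHom.coe_mk, pr1,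
        Pi.single_eq_of_ne (ne01 i j), zero_add, Pi.single_apply, Fin.natAdd_inj]
  rw [dl, map_sub, map_one, sub_ne_zero]
  intro h
  simp only [AddMonoidAlgebra.mapDomainRingHom_apply, AddMonoidAlgebra.mapDomain_single, map_sub,
    hd] at h
  rw [AddMonoidAlgebra.one_def, AddMonoidAlgebra.single_left_inj one_ne_zero] at h
  have := congrFun h (pr x.1)
  simp [Pi.single_eq_of_ne hx'] at this

theorem one_mem {c : ℂ} (hc : c ≠ 0) {L : ℤ → A} (hL : Vir c L) (I : Submodule ℂ A)
    (hI : ∀ n, ∀ x ∈ I, ad L n x ∈ I) {x : A} (hx : x ∈ I) (hx0 : x ≠ 0)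
    (hs : ∃ d, x ∈ Lt L d) : (1 : A) ∈ I := by
  classical
  have h0 : x ∉ Lt L 0 := by
    intro h
    apply hx0
    have : Lt L 0 = ⊥ := by simp [Lt]
    simpa [this] using h
  obtain ⟨d, hd1, hd⟩ : ∃ d, x ∈ Lt L (d + 1) ∧ x ∉ Lt L d := by
    obtain ⟨e, he⟩ := hs
    induction e with
    | zero => exact absurd he h0
    | succ e ih =>
      by_cases h : x ∈ Lt L e
      · exact ih h
      · exact ⟨e, he, h⟩
  obtain ⟨m, hm⟩ := split L d hd1
  have hS : Sym d m ≠ 0 := by
    intro h
    have h1 := pid_Sym hL d m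
    rw [h, map_zero, sub_zero, Submodule.smul_mem_iff _ (by exact_mod_cast d.factorial_ne_zero)] at h1
    apply hd
    simpa using Submodule.add_mem _ hm h1
  set w : AddMonoidAlgebra ℂ (Fin d → ℤ) := AddMonoidAlgebra.ofCoeff (Sym d m) with hw
  have hw0 : w ≠ 0 := by
    intro h
    apply hS
    have := congrArg AddMonoidAlgebra.coeff h
    simpa [hw] using this
  have hne := mul_ne_zero (cross_ne d) hw0
  obtain ⟨b, hb⟩ : ∃ b, (AddMonoidAlgebra.mapDomainRingHom ℂ diag (cross d) * w).coeff b ≠ 0 := by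
    by_contra h
    push Not at h
    apply hne
    ext b
    simpa using h b
  set n0 : Fin (d + d) → ℤ := Fin.addCases (fun i => - b i) (fun _ => 0) with hn0
  have hdn : diag n0 = - b := by
    funext i
    simp only [diag, AddMonoidHom.coe_mk, ZeroHom.coe_mk, hn0, Fin.addCases_left,
      Fin.addCases_right, add_zero, Pi.neg_apply]
  have hmem := act_mem I ((1 * ∏ i, dl (uu i) ^ 4) * cross d) (fun n => Phi L n x)
    (fun n => Phi_mem L I hI n hx) n0
  have e : (fun n : Fin (d + d) → ℤ => Phi L n x) =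
      (fun n => Phi L n (x - pid L d m)) + (fun n => Phi L n (pid L d m)) := by
    funext n; simp
  rw [e, map_add, low' hL _ hm, zero_add, top' hL, one_mul,
    act_comp diag (cross d) (fun y => Sym d m (-y) • ((-2 * c) ^ d • (1 : A))) n0] at hmem
  have e2 := act_neg (AddMonoidAlgebra.mapDomainRingHom ℂ diag (cross d)) w
    ((-2 * c) ^ d • (1 : A)) (diag n0)
  rw [show (fun y => Sym d m (-y) • ((-2 * c) ^ d • (1 : A))) =
    (fun y => w.coeff (-y) • ((-2 * c) ^ d • (1 : A))) from rfl, e2, hdn, neg_neg,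
    Submodule.smul_mem_iff _ hb, Submodule.smul_mem_iff _ (pow_ne_zero _ (by simpa using hc))] at hmem
  exact hmem

open MvPolynomial in
noncomputable def DD (c : ℂ) (m : ℤ) : Derivation ℂ (MvPolynomial ℤ ℂ) (MvPolynomial ℤ ℂ) :=
  mkDerivation ℂ fun n => MvPolynomial.C (-(n : ℂ)) * MvPolynomial.X (m + n) +
    MvPolynomial.C (if m + n = 0 then -c / 24 * (m : ℂ) ^ 2 else 0)

noncomputable def ph (c : ℂ) (m : ℤ) : MvPolynomial ℤ ℂ :=
  MvPolynomial.C (m : ℂ) * MvPolynomial.X m + MvPolynomial.C (if m = 0 then c / 24 else 0)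

noncomputable def rep (c : ℂ) (m : ℤ) : Module.End ℂ (MvPolynomial ℤ ℂ) :=
  (DD c m : MvPolynomial ℤ ℂ →ₗ[ℂ] MvPolynomial ℤ ℂ) + LinearMap.mulLeft ℂ (ph c m)

theorem DD_X (c : ℂ) (m n : ℤ) : DD c m (MvPolynomial.X n) =
    MvPolynomial.C (-(n : ℂ)) * MvPolynomial.X (m + n) +
    MvPolynomial.C (if m + n = 0 then -c / 24 * (m : ℂ) ^ 2 else 0) := by
  simp only [DD, MvPolynomial.mkDerivation_X]

theorem DD_C (c : ℂ) (m : ℤ) (r : ℂ) : DD c m (MvPolynomial.C r) = 0 :=
  (DD c m).map_algebraMap r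

theorem DD_lie (c : ℂ) (m n : ℤ) : ⁅DD c m, DD c n⁆ = ((m - n : ℤ) : ℂ) • DD c (m + n) := by
  apply MvPolynomial.derivation_ext
  intro k
  simp only [Derivation.commutator_apply, Derivation.smul_apply, DD_X, map_add, Derivation.leibniz,
    DD_C, smul_zero, add_zero, smul_eq_mul, MvPolynomial.smul_eq_C_mul]
  rw [show m + (n + k) = m + n + k by ring, show n + (m + k) = m + n + k by ring]
  by_cases h : m + n + k = 0
  · simp only [if_pos h]
    have hk : (k : ℂ) = -(m + n) := by
      have : k = -(m + n) := by omega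
      rw [this]; push_cast; ring
    have : MvPolynomial.C (σ := ℤ) (-(k : ℂ)) * MvPolynomial.C (-c / 24 * (m : ℂ) ^ 2) -
        MvPolynomial.C (-(k : ℂ)) * MvPolynomial.C (-c / 24 * (n : ℂ) ^ 2) =
        MvPolynomial.C ((m - n : ℤ) : ℂ) * MvPolynomial.C (-c / 24 * ((m + n : ℤ) : ℂ) ^ 2) := by
      simp only [← map_mul, ← map_sub]
      congr 1
      rw [hk]; push_cast; ring
    simp only [Int.cast_add, Int.cast_sub, map_neg, map_add, map_sub] at this ⊢
    linear_combination this
  · simp only [if_neg h, Int.cast_add, Int.cast_sub, map_neg, map_add, map_sub, map_zero]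
    ring

theorem rep_vir (c : ℂ) : Vir c (rep c) := by
  intro m n
  refine LinearMap.ext fun f => ?_
  have h := congrArg (fun D : Derivation ℂ (MvPolynomial ℤ ℂ) (MvPolynomial ℤ ℂ) => D f)
    (DD_lie c m n)
  simp only [Derivation.commutator_apply, Derivation.smul_apply, MvPolynomial.smul_eq_C_mul] at h
  have h2 : DD c m (ph c n) - DD c n (ph c m) = MvPolynomial.C ((m - n : ℤ) : ℂ) * ph c (m + n) +
      MvPolynomial.C (if m + n = 0 then c * ((m : ℂ) ^ 3 - m) / 12 else 0) := by
    simp only [ph, map_add, Derivation.leibniz, DD_C, DD_X, smul_zero, add_zero, smul_eq_mul]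
    rw [add_comm n m]
    by_cases h : m + n = 0
    · simp only [if_pos h]
      have hk : (n : ℂ) = -m := by
        have : n = -m := by omega
        rw [this]; push_cast; ring
      have : MvPolynomial.C (σ := ℤ) (n : ℂ) * MvPolynomial.C (-c / 24 * (m : ℂ) ^ 2) -
          MvPolynomial.C (m : ℂ) * MvPolynomial.C (-c / 24 * (n : ℂ) ^ 2) =
          MvPolynomial.C ((m - n : ℤ) : ℂ) * MvPolynomial.C (c / 24) +
          MvPolynomial.C (c * ((m : ℂ) ^ 3 - m) / 12) := by
        simp only [← map_mul, ← map_sub, ← map_add]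
        congr 1
        push_cast; rw [hk]; ring
      simp only [Int.cast_add, Int.cast_sub, map_neg, map_add, map_sub] at this ⊢
      linear_combination this
    · simp only [if_neg h, Int.cast_add, Int.cast_sub, map_neg, map_add, map_sub, map_zero]
      ring
  simp only [rep, LinearMap.sub_apply, Module.End.mul_apply, LinearMap.add_apply,
    Derivation.coeFn_coe, LinearMap.mulLeft_apply, map_add, Derivation.leibniz, smul_eq_mul,
    LinearMap.smul_apply, Module.End.one_apply, MvPolynomial.smul_eq_C_mul]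
  linear_combination h + f * h2

theorem all_mem (L : ℤ → A) (f : FreeAlgebra ℂ ℤ →ₐ[ℂ] A) (hf : ∀ n, f (FreeAlgebra.ι ℂ n) = L n)
    (y : FreeAlgebra ℂ ℤ) : ∃ d, f y ∈ Lt L d := by
  have : ∀ x : A, (∃ d, x ∈ Lt L d) → ∃ d, f y * x ∈ Lt L d := by
    induction y using FreeAlgebra.induction with
    | grade0 r =>
      rintro x ⟨d, hd⟩
      exact ⟨d, by rw [AlgHom.commutes, ← Algebra.smul_def]; exact Submodule.smul_mem _ _ hd⟩
    | grade1 n =>
      rintro x ⟨d, hd⟩
      exact ⟨d + 1, by rw [hf]; exact Lt_mul L n hd⟩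
    | mul a b ha hb =>
      intro x hx
      rw [map_mul, mul_assoc]
      exact ha _ (hb x hx)
    | add a b ha hb =>
      intro x hx
      obtain ⟨d, hd⟩ := ha x hx
      obtain ⟨e, he⟩ := hb x hx
      refine ⟨max d e, ?_⟩
      rw [map_add, add_mul]
      exact Submodule.add_mem _ (Lt_mono L (le_max_left _ _) hd) (Lt_mono L (le_max_right _ _) he)
  simpa using this 1 ⟨1, Wd_mem L [] (by simp)⟩

theorem main (c : ℂ) (hc : c ≠ 0) :
    IsSimpleRing
      (RingQuot (fun a b : FreeAlgebra ℂ ℤ =>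
        ∃ m n : ℤ,
          a = FreeAlgebra.ι ℂ m * FreeAlgebra.ι ℂ n - FreeAlgebra.ι ℂ n * FreeAlgebra.ι ℂ m ∧
          b = ((m - n : ℤ) : ℂ) • FreeAlgebra.ι ℂ (m + n) +
            (if m + n = 0 then
              algebraMap ℂ (FreeAlgebra ℂ ℤ) (c * ((m : ℂ) ^ 3 - (m : ℂ)) / 12)
             else 0))) := by
  set r := (fun a b : FreeAlgebra ℂ ℤ =>
        ∃ m n : ℤ,
          a = FreeAlgebra.ι ℂ m * FreeAlgebra.ι ℂ n - FreeAlgebra.ι ℂ n * FreeAlgebra.ι ℂ m ∧
          b = ((m - n : ℤ) : ℂ) • FreeAlgebra.ι ℂ (m + n) +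
            (if m + n = 0 then
              algebraMap ℂ (FreeAlgebra ℂ ℤ) (c * ((m : ℂ) ^ 3 - (m : ℂ)) / 12)
             else 0)) with hr
  have hnt : Nontrivial (RingQuot r) := by
    let g : RingQuot r →ₐ[ℂ] Module.End ℂ (MvPolynomial ℤ ℂ) :=
      RingQuot.liftAlgHom ℂ ⟨FreeAlgebra.lift ℂ (rep c), by
        rintro x y ⟨m, n, rfl, rfl⟩
        simp only [map_sub, map_mul, map_add, map_smul, FreeAlgebra.lift_ι_apply]
        rw [rep_vir c m n]
        congr 1
        split_ifs
        · rw [AlgHom.commutes, Algebra.algebraMap_eq_smul_one]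
        · simp⟩
    exact g.toRingHom.domain_nontrivial
  set L : ℤ → RingQuot r := fun n => RingQuot.mkAlgHom ℂ r (FreeAlgebra.ι ℂ n) with hLd
  have hL : Vir c L := by
    intro m n
    have := RingQuot.mkAlgHom_rel ℂ (s := r) ⟨m, n, rfl, rfl⟩
    simp only [map_sub, map_mul, map_add, map_smul] at this
    rw [this]
    congr 1
    split_ifs
    · rw [AlgHom.commutes, Algebra.algebraMap_eq_smul_one]
    · simp
  refine IsSimpleRing.of_eq_bot_or_eq_top fun I => ?_
  by_cases h : I = ⊥
  · exact Or.inl h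
  right
  obtain ⟨x, hx, hx0⟩ : ∃ x ∈ I, x ≠ 0 := by
    by_contra h'
    push Not at h'
    apply h
    rw [eq_bot_iff]
    intro x hx
    simpa using h' x hx
  let J : Submodule ℂ (RingQuot r) :=
    { carrier := I
      add_mem' := fun ha hb => I.add_mem ha hb
      zero_mem' := I.zero_mem
      smul_mem' := fun a x hx => by
        rw [Algebra.smul_def]; exact I.mul_mem_left _ _ hx }
  obtain ⟨y, rfl⟩ := RingQuot.mkAlgHom_surjective ℂ r x
  have h1 := one_mem hc hL J (fun n x hx => I.sub_mem (I.mul_mem_left _ _ hx) (I.mul_mem_right _ _ hx))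
    hx hx0 (all_mem L _ (fun _ => rfl) y)
  exact (TwoSidedIdeal.one_mem_iff I).1 h1

end Pool.Agent.H.MP_94cd9d_al
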